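import Pool.Agent.Helper186_L38.T1
import Pool.Agent.Helper186_L38.T2
import Pool.Agent.Helper186_L38.T3
import Pool.Agent.Helper186_L38.T4
import Pool.Agent.Helper186_L38.T5
import Pool.Agent.Helper186_L38.T5b
import Pool.Agent.Helper186_L38.T6
import Pool.Agent.Helper186_L38.T7T8
import Pool.Agent.Helper186_L38.T9
import Pool.Agent.Helper186_L38.T10
import Pool.Agent.Helper186_L38.T10b
import Pool.Agent.Helper186_L38.T11
import Pool.Agent.Helper186_L38.T12
import Pool.Agent.Helper186_L38.LB
import Pool.Agent.Helper186_L38.U1
import Pool.Agent.Helper186_L38.U2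
import Pool.Agent.Helper186_L38.U3
import Pool.Agent.Helper186_L38.U4
import Pool.Agent.Helper186_L38.U5
import Pool.Agent.Helper186_L38.U6
import Pool.Agent.Helper186_L38.U7
import Pool.Agent.Helper186_L38.U8a
import Pool.Agent.Helper186_L38.U8b
import Pool.Agent.Helper186_L38.U9
import Pool.Agent.Helper186_L38.Fin

set_option autoImplicit false

open Filter Topology

/-!
# The limit of `B_{n,3} / n^2` is `3/8`

`B n` is the largest number of real projective zeros of a nonnegative real ternary form of degree
`n` with finitely many real projective zeros. The limit of `B n / n^2` along the even `n` is `3/8`.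
-/

namespace Pool.Agent.Results.MP_9d788c_ag.LimitThreeEighths

open Pool.Agent.Helper186_L38

/-- The lower bound: for every even `k ≥ 4` there is a nonnegative ternary form of degree `2k` with
finitely many zeros and at least `(3k² - 9k + 2)/2` of them. -/
theorem lower : S_LB :=
  lb (t2 t1) t3 (t4 t1) (t6 t1 t3 t5 (t5b t1)) (t7 t3 t3b (t4 t1)) (t8 t1 t3 t3b (t5b t1))
    (t9 t9a t1 t3 (t5b t1)) (t10 t1 t3) (t10b t1) t11 t12

/-- The upper bound: a nonnegative ternary form of degree `2k` with finitely many zeros has at most
`(3k² + k)/2` of them. -/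
theorem upper : S_UB :=
  ub (u7 u1) u7a (u8a u0 u1 u2 (u3 u0) (u5 u4)) (u8b u1 u2 u6) u9a

/-- For every even `n` the set `counts n` of the numbers of real projective zeros of nonnegative real
ternary forms of degree `n` with finite real zero set is nonempty and bounded, so that its supremum
`B n` is its maximum, and `B n / n ^ 2` tends to `3/8` as `n = 2k` tends to infinity. -/
theorem result :
    (∀ n : ℕ, Even n → (counts n).Nonempty ∧ BddAbove (counts n)) ∧
    Tendsto (fun k : ℕ => (B (2 * k) : ℝ) / ((2 * k : ℕ) : ℝ) ^ 2) atTop (𝓝 (3 / 8)) :=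
  final lower upper

end Pool.Agent.Results.MP_9d788c_ag.LimitThreeEighths
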